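import Pool.Agent.H242.GX.Stm3

/-!
# Project GX (helper242), job CURV (helper396): one-variable calculus along the curve
-/

set_option autoImplicit false

open Set Filter Topology
open scoped ContDiff

namespace Pool.Agent.H396.GX

/-- the cross product -/
def cr (x y : ℂ) : ℝ := x.re * y.im - x.im * y.re

theorem hre {f : ℝ → ℂ} {f' : ℂ} {t : ℝ} (h : HasDerivAt f f' t) :
    HasDerivAt (fun t => (f t).re) f'.re t :=
  Complex.reCLM.hasFDerivAt.comp_hasDerivAt t h

theorem him {f : ℝ → ℂ} {f' : ℂ} {t : ℝ} (h : HasDerivAt f f' t) :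
    HasDerivAt (fun t => (f t).im) f'.im t :=
  Complex.imCLM.hasFDerivAt.comp_hasDerivAt t h

theorem hcr {f g : ℝ → ℂ} {f' g' : ℂ} {t : ℝ} (hf : HasDerivAt f f' t) (hg : HasDerivAt g g' t) :
    HasDerivAt (fun t => cr (f t) (g t)) (cr f' (g t) + cr (f t) g') t := by
  have h := ((hre hf).mul (him hg)).sub ((him hf).mul (hre hg))
  refine h.congr_deriv ?_
  unfold cr
  ring

/-- derivatives of even and odd functions -/
theorem even_deriv {f f' : ℝ → ℝ} (e : ℝ) (h : ∀ᶠ s in 𝓝 (0 : ℝ), f s = e * f (-s))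
    (hd : ∀ᶠ s in 𝓝 (0 : ℝ), HasDerivAt f (f' s) s) :
    ∀ᶠ s in 𝓝 (0 : ℝ), f' s = -e * f' (-s) := by
  have hneg : Tendsto (fun s : ℝ => -s) (𝓝 0) (𝓝 0) := by
    have := (continuous_neg (G := ℝ)).tendsto 0
    rwa [neg_zero] at this
  filter_upwards [h.eventually_nhds, hd, hneg.eventually hd] with s h1 h2 h3
  have h4 : HasDerivAt (fun u : ℝ => e * f (-u)) (e * (f' (-s) * (-1))) s :=
    (HasDerivAt.comp s h3 (hasDerivAt_neg s)).const_mul e
  have h5 : HasDerivAt f (e * (f' (-s) * (-1))) s := h4.congr_of_eventuallyEq h1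
  rw [h2.unique h5]
  ring

/-- the third derivative of an even function at zero -/
theorem third {g0 g1 g2 : ℝ → ℝ} {c : ℝ} (h0 : ∀ᶠ s in 𝓝 (0 : ℝ), HasDerivAt g0 (g1 s) s)
    (h1 : ∀ᶠ s in 𝓝 (0 : ℝ), HasDerivAt g1 (g2 s) s) (h2 : HasDerivAt g2 c 0)
    (he : ∀ᶠ s in 𝓝 (0 : ℝ), g0 s = g0 (-s)) : c = 0 := by
  have e0 : ∀ᶠ s in 𝓝 (0 : ℝ), g0 s = 1 * g0 (-s) := he.mono fun s hs => by rw [one_mul]; exact hs
  have e1 := even_deriv 1 e0 h0
  have e2 := even_deriv (-1) e1 h1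
  have e3 : HasDerivAt (fun u : ℝ => -(-1) * g2 (-u)) (-(-1) * (c * (-1))) 0 := by
    refine HasDerivAt.const_mul _ ?_
    have h3 : HasDerivAt g2 c (-0) := by rw [neg_zero]; exact h2
    exact HasDerivAt.comp (0 : ℝ) h3 (hasDerivAt_neg (0 : ℝ))
  have e4 := e3.congr_of_eventuallyEq e2
  have e5 := h2.unique e4
  linarith

/-- if the direction of the tangent vector is constant the curve is not periodic -/
theorem per {γ v v' : ℝ → ℂ} (h1 : ∀ t, HasDerivAt γ (v t) t) (h2 : ∀ t, HasDerivAt v (v' t) t)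
    (hper : γ 0 = γ 1) (hv : ∀ t, v t ≠ 0) (hω : ∀ t, cr (v t) (v' t) = 0) : False := by
  have hN : ∀ t, 0 < (v t).re * (v t).re + (v t).im * (v t).im := by
    intro t
    have := Complex.normSq_pos.2 (hv t)
    rwa [Complex.normSq_apply] at this
  have hNd : ∀ t, HasDerivAt (fun t => (v t).re * (v t).re + (v t).im * (v t).im)
      (((v' t).re * (v t).re + (v t).re * (v' t).re) +
        ((v' t).im * (v t).im + (v t).im * (v' t).im)) t := fun t =>
    ((hre (h2 t)).mul (hre (h2 t))).add ((him (h2 t)).mul (him (h2 t)))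
  have hcd : ∀ t, HasDerivAt (fun t => cr (v t) (v 0)) (cr (v' t) (v 0)) t := by
    intro t
    have h := hcr (h2 t) (hasDerivAt_const t (v 0))
    refine h.congr_deriv ?_
    unfold cr
    simp
  have hK : ∀ t, HasDerivAt (fun t => cr (v t) (v 0) * cr (v t) (v 0) /
      ((v t).re * (v t).re + (v t).im * (v t).im)) 0 t := by
    intro t
    have h := ((hcd t).mul (hcd t)).div (hNd t) (hN t).ne'
    refine h.congr_deriv ?_
    rw [div_eq_zero_iff]
    left
    have h3 := hω t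
    unfold cr at h3 ⊢
    simp only [Pi.mul_apply]
    linear_combination (-2) * ((v t).re * (v 0).im - (v t).im * (v 0).re) *
      ((v t).re * (v 0).re + (v t).im * (v 0).im) * h3
  have hconst : ∀ t, cr (v t) (v 0) * cr (v t) (v 0) /
      ((v t).re * (v t).re + (v t).im * (v t).im) =
      cr (v 0) (v 0) * cr (v 0) (v 0) / ((v 0).re * (v 0).re + (v 0).im * (v 0).im) := fun t =>
    is_const_of_deriv_eq_zero (fun t => (hK t).differentiableAt) (fun t => (hK t).deriv) t 0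
  have hcr0 : ∀ t, cr (v t) (v 0) = 0 := by
    intro t
    have h3 := hconst t
    have h4 : cr (v 0) (v 0) = 0 := by
      unfold cr
      ring
    rw [h4, mul_zero, zero_div, div_eq_zero_iff] at h3
    rcases h3 with h3 | h3
    · exact mul_self_eq_zero.1 h3
    · exact absurd h3 (hN t).ne'
  -- Rolle
  have hf : ∀ t, HasDerivAt (fun t => (γ t).re * (v 0).re + (γ t).im * (v 0).im)
      ((v t).re * (v 0).re + (v t).im * (v 0).im) t := fun t =>
    ((hre (h1 t)).mul_const _).add ((him (h1 t)).mul_const _)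
  obtain ⟨t, -, ht⟩ := exists_hasDerivAt_eq_zero (f := fun t => (γ t).re * (v 0).re +
    (γ t).im * (v 0).im) (f' := fun t => (v t).re * (v 0).re + (v t).im * (v 0).im)
    (a := 0) (b := 1) one_pos
    (fun t _ => (hf t).continuousAt.continuousWithinAt) (by
      show (γ 0).re * (v 0).re + (γ 0).im * (v 0).im = (γ 1).re * (v 0).re + (γ 1).im * (v 0).im
      rw [hper]) (fun t _ => hf t)
  have ht' : (v t).re * (v 0).re + (v t).im * (v 0).im = 0 := ht
  have h5 := hcr0 t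
  unfold cr at h5
  have h6 : ((v t).re * (v t).re + (v t).im * (v t).im) *
      ((v 0).re * (v 0).re + (v 0).im * (v 0).im) = 0 := by
    linear_combination ((v t).re * (v 0).re + (v t).im * (v 0).im) * ht' +
      ((v t).re * (v 0).im - (v t).im * (v 0).re) * h5
  exact absurd h6 (mul_pos (hN t) (hN 0)).ne'

/-- the line through `p` -/
theorem line (p w : ℂ) (s : ℝ) : HasDerivAt (fun s : ℝ => p + s • w) w s := by
  have h := ((hasDerivAt_id s).smul_const w).const_add p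
  rw [one_smul] at h
  exact h

theorem dir3 (D2 : ℂ → ℂ →L[ℝ] ℂ →L[ℝ] ℝ) (L : ℂ →L[ℝ] ℂ →L[ℝ] ℂ →L[ℝ] ℝ) (p w : ℂ) (s : ℝ)
    (h : HasFDerivAt D2 L (p + s • w)) :
    HasDerivAt (fun s : ℝ => D2 (p + s • w) w w) (L w w w) s := by
  have h1 : HasDerivAt (fun s : ℝ => D2 (p + s • w)) (L w) s :=
    HasFDerivAt.comp_hasDerivAt (E := ℂ →L[ℝ] ℂ →L[ℝ] ℝ) (F := ℂ) s h (line p w s)
  have h2 := h1.clm_apply (hasDerivAt_const s w)
  rw [map_zero, add_zero] at h2
  have h3 := h2.clm_apply (hasDerivAt_const s w)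
  rw [map_zero, add_zero] at h3
  exact h3

theorem dir2 (D1 : ℂ → ℂ →L[ℝ] ℝ) (L : ℂ →L[ℝ] ℂ →L[ℝ] ℝ) (p w : ℂ) (s : ℝ)
    (h : HasFDerivAt D1 L (p + s • w)) :
    HasDerivAt (fun s : ℝ => D1 (p + s • w) w) (L w w) s := by
  have h1 : HasDerivAt (fun s : ℝ => D1 (p + s • w)) (L w) s :=
    HasFDerivAt.comp_hasDerivAt (E := ℂ →L[ℝ] ℝ) (F := ℂ) s h (line p w s)
  have h2 := h1.clm_apply (hasDerivAt_const s w)
  rw [map_zero, add_zero] at h2
  exact h2

/-- the third derivative in a direction in which the function is even -/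
theorem zero3 {Y : ℂ → ℝ} {D1 : ℂ → ℂ →L[ℝ] ℝ} {D2 : ℂ → ℂ →L[ℝ] ℂ →L[ℝ] ℝ}
    {D3 : ℂ → ℂ →L[ℝ] ℂ →L[ℝ] ℂ →L[ℝ] ℝ} {U : Set ℂ} (hU : IsOpen U)
    (d1 : ∀ z ∈ U, HasFDerivAt Y (D1 z) z) (d2 : ∀ z ∈ U, HasFDerivAt D1 (D2 z) z)
    (d3 : ∀ z ∈ U, HasFDerivAt D2 (D3 z) z) {p w : ℂ} (hp : p ∈ U) {r : ℝ} (hr : 0 < r)
    (he : ∀ s : ℝ, |s| < r → Y (p + s • w) = Y (p - s • w)) : D3 p w w w = 0 := by
  have h0 : p + (0 : ℝ) • w = p := by rw [zero_smul, add_zero]
  have hcU : ∀ᶠ s in 𝓝 (0 : ℝ), p + s • w ∈ U := by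
    refine (line p w 0).continuousAt.eventually_mem (hU.mem_nhds ?_)
    rw [h0]
    exact hp
  refine third (g0 := fun s => Y (p + s • w)) (g1 := fun s => D1 (p + s • w) w)
    (g2 := fun s => D2 (p + s • w) w w) ?_ ?_ ?_ ?_
  · filter_upwards [hcU] with s hs
    exact (d1 _ hs).comp_hasDerivAt s (line p w s)
  · filter_upwards [hcU] with s hs
    exact dir2 D1 _ p w s (d2 _ hs)
  · refine dir3 D2 _ p w 0 ?_
    rw [h0]
    exact d3 _ hp
  · filter_upwards [Metric.ball_mem_nhds (0 : ℝ) hr] with s hs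
    rw [mem_ball_zero_iff, Real.norm_eq_abs] at hs
    rw [he s hs, neg_smul, sub_eq_add_neg]

theorem gx_CURV : Pool.Agent.H242.GX.S_CURV := by
  intro U Y γ hU hγU hY hγ hper hv hYγ hreg hev
  -- derivatives of the curve
  obtain ⟨v, hvd⟩ : ∃ v, v = deriv γ := ⟨_, rfl⟩
  obtain ⟨v', hvd'⟩ : ∃ v', v' = deriv v := ⟨_, rfl⟩
  obtain ⟨v'', hvd''⟩ : ∃ v'', v'' = deriv v' := ⟨_, rfl⟩
  have hs1 := contDiff_infty_iff_deriv.1 hγ
  rw [← hvd] at hs1
  have hs2 := contDiff_infty_iff_deriv.1 hs1.2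
  rw [← hvd'] at hs2
  have hs3 := contDiff_infty_iff_deriv.1 hs2.2
  have h1 : ∀ t, HasDerivAt γ (v t) t := fun t => by rw [hvd]; exact (hs1.1 t).hasDerivAt
  have h2 : ∀ t, HasDerivAt v (v' t) t := fun t => by rw [hvd']; exact (hs2.1 t).hasDerivAt
  have h3 : ∀ t, HasDerivAt v' (v'' t) t := fun t => by rw [hvd'']; exact (hs3.1 t).hasDerivAt
  rw [← hvd] at hv hev ⊢
  rw [← hvd']
  -- derivatives of `Y`
  obtain ⟨D1, hD1⟩ : ∃ D1, D1 = fderiv ℝ Y := ⟨_, rfl⟩
  obtain ⟨D2, hD2⟩ : ∃ D2, D2 = fderiv ℝ D1 := ⟨_, rfl⟩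
  obtain ⟨D3, hD3⟩ : ∃ D3, D3 = fderiv ℝ D2 := ⟨_, rfl⟩
  have hY1 : ContDiffOn ℝ ∞ D1 U := by
    rw [hD1]
    exact hY.fderiv_of_isOpen hU (by simp)
  have hY2 : ContDiffOn ℝ ∞ D2 U := by
    rw [hD2]
    exact hY1.fderiv_of_isOpen hU (by simp)
  have d1 : ∀ z ∈ U, HasFDerivAt Y (D1 z) z := by
    intro z hz
    rw [hD1]
    exact ((hY.contDiffAt (hU.mem_nhds hz)).differentiableAt (by simp)).hasFDerivAt
  have d2 : ∀ z ∈ U, HasFDerivAt D1 (D2 z) z := by
    intro z hz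
    rw [hD2]
    exact ((hY1.contDiffAt (hU.mem_nhds hz)).differentiableAt (by simp)).hasFDerivAt
  have d3 : ∀ z ∈ U, HasFDerivAt D2 (D3 z) z := by
    intro z hz
    rw [hD3]
    exact ((hY2.contDiffAt (hU.mem_nhds hz)).differentiableAt (by simp)).hasFDerivAt
  have hsym : ∀ z ∈ U, ∀ x y, D2 z x y = D2 z y x := by
    intro z hz x y
    have h2' : (2 : WithTop ℕ∞) ≤ ∞ := WithTop.coe_le_coe.2 le_top
    have h := (hY.contDiffAt (hU.mem_nhds hz)).isSymmSndFDerivAt
      (by rw [minSmoothness_of_isRCLikeNormedField]; exact h2')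
    rw [hD2, hD1]
    exact h x y
  have hU' : ∀ t, γ t ∈ U := fun t => hγU ⟨t, rfl⟩
  rw [← hD1] at hreg
  have c1 : ∀ t, HasDerivAt (fun t => D1 (γ t)) (D2 (γ t) (v t)) t := fun t =>
    (d2 _ (hU' t)).comp_hasDerivAt t (h1 t)
  have c2 : ∀ t, HasDerivAt (fun t => D2 (γ t)) (D3 (γ t) (v t)) t := fun t =>
    HasFDerivAt.comp_hasDerivAt (E := ℂ →L[ℝ] ℂ →L[ℝ] ℝ) (F := ℂ) t (d3 _ (hU' t)) (h1 t)
  -- equation (0)
  have e0 : ∀ t, D1 (γ t) (v t) = 0 := by
    intro t
    have h : HasDerivAt (fun t => Y (γ t)) (D1 (γ t) (v t)) t :=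
      (d1 _ (hU' t)).comp_hasDerivAt t (h1 t)
    have h' : (fun t => Y (γ t)) = fun _ => (0 : ℝ) := funext hYγ
    rw [h'] at h
    exact h.unique (hasDerivAt_const t (0 : ℝ))
  -- equation (1)
  have e1 : ∀ t, D2 (γ t) (v t) (v t) + D1 (γ t) (v' t) = 0 := by
    intro t
    have h := (c1 t).clm_apply (h2 t)
    have h' : (fun t => D1 (γ t) (v t)) = fun _ => (0 : ℝ) := funext e0
    rw [h'] at h
    exact h.unique (hasDerivAt_const t (0 : ℝ))
  -- equation (2)
  have e2 : ∀ t, ((D3 (γ t) (v t) (v t) + D2 (γ t) (v' t)) (v t) + D2 (γ t) (v t) (v' t)) +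
      (D2 (γ t) (v t) (v' t) + D1 (γ t) (v'' t)) = 0 := by
    intro t
    have h := (((c2 t).clm_apply (h2 t)).clm_apply (h2 t)).add ((c1 t).clm_apply (h3 t))
    have h' : (fun t => D2 (γ t) (v t) (v t) + D1 (γ t) (v' t)) = fun _ => (0 : ℝ) := funext e1
    have h'' : HasDerivAt (fun t => D2 (γ t) (v t) (v t) + D1 (γ t) (v' t))
      (((D3 (γ t) (v t) (v t) + D2 (γ t) (v' t)) (v t) + D2 (γ t) (v t) (v' t)) +
      (D2 (γ t) (v t) (v' t) + D1 (γ t) (v'' t))) t := h
    rw [h'] at h''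
    exact h''.unique (hasDerivAt_const t (0 : ℝ))
  -- equation (3)
  have e3 : ∀ t, D3 (γ t) (v t) (v t) (v t) = 0 := by
    intro t
    obtain ⟨r, hr, hr'⟩ := hev t
    exact zero3 hU d1 d2 d3 (hU' t) hr hr'
  -- the function `m`
  have hN : ∀ t, 0 < (v t).re * (v t).re + (v t).im * (v t).im := by
    intro t
    have := Complex.normSq_pos.2 (hv t)
    rwa [Complex.normSq_apply] at this
  obtain ⟨m, hm⟩ : ∃ m : ℝ → ℝ, m = fun t => D1 (γ t) (Complex.I * v t) /
    ((v t).re * (v t).re + (v t).im * (v t).im) := ⟨_, rfl⟩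
  have hmd : ∀ t, DifferentiableAt ℝ m t := by
    intro t
    rw [hm]
    refine DifferentiableAt.div ?_ ?_ (hN t).ne'
    · exact ((c1 t).clm_apply ((h2 t).const_mul Complex.I)).differentiableAt
    · exact (((hre (h2 t)).mul (hre (h2 t))).add ((him (h2 t)).mul (him (h2 t)))).differentiableAt
  have hmx : ∀ t x, D1 (γ t) x = m t * cr (v t) x := by
    intro t x
    obtain ⟨N, hNd⟩ : ∃ N : ℝ, N = (v t).re * (v t).re + (v t).im * (v t).im := ⟨_, rfl⟩
    have hN0 : N ≠ 0 := by rw [hNd]; exact (hN t).ne'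
    have hx : x = (((v t).re * x.re + (v t).im * x.im) / N) • v t +
        (cr (v t) x / N) • (Complex.I * v t) := by
      apply Complex.ext
      · simp only [Complex.add_re, Complex.smul_re, smul_eq_mul, Complex.mul_re, Complex.I_re,
          Complex.I_im, cr]
        field_simp
        rw [hNd]
        ring
      · simp only [Complex.add_im, Complex.smul_im, smul_eq_mul, Complex.mul_im, Complex.I_re,
          Complex.I_im, cr]
        field_simp
        rw [hNd]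
        ring
    have h4 : D1 (γ t) x = (((v t).re * x.re + (v t).im * x.im) / N) * D1 (γ t) (v t) +
        (cr (v t) x / N) * D1 (γ t) (Complex.I * v t) := by
      conv_lhs => rw [hx]
      rw [map_add, map_smul, map_smul, smul_eq_mul, smul_eq_mul]
    rw [h4, e0, hm, mul_zero, zero_add]
    show cr (v t) x / N * D1 (γ t) (Complex.I * v t) =
      D1 (γ t) (Complex.I * v t) / ((v t).re * (v t).re + (v t).im * (v t).im) * cr (v t) x
    rw [← hNd]
    ring
  have hm0 : ∀ t, m t ≠ 0 := by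
    intro t h0
    apply hreg (γ t) (hU' t)
    ext x
    rw [hmx, h0, zero_mul]
    rfl
  have hmB : ∀ t x, D2 (γ t) (v t) x = deriv m t * cr (v t) x + m t * cr (v' t) x := by
    intro t x
    have h4 : HasDerivAt (fun t => D1 (γ t) x) (D2 (γ t) (v t) x) t := by
      have h := (c1 t).clm_apply (hasDerivAt_const t x)
      rw [map_zero, add_zero] at h
      exact h
    have h5 : HasDerivAt (fun t => m t * cr (v t) x)
        (deriv m t * cr (v t) x + m t * cr (v' t) x) t := by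
      have h := (hmd t).hasDerivAt.mul (hcr (h2 t) (hasDerivAt_const t x))
      refine h.congr_deriv ?_
      unfold cr
      simp
    have h6 : (fun t => D1 (γ t) x) = fun t => m t * cr (v t) x := funext fun t => hmx t x
    rw [h6] at h4
    exact h4.unique h5
  have hωd : ∀ t, HasDerivAt (fun t => cr (v t) (v' t)) (cr (v t) (v'' t)) t := by
    intro t
    refine (hcr (h2 t) (h3 t)).congr_deriv ?_
    unfold cr
    ring
  have hkey : ∀ t, 3 * deriv m t * cr (v t) (v' t) + m t * cr (v t) (v'' t) = 0 := by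
    intro t
    have h4 := e2 t
    rw [add_apply, e3, hsym _ (hU' t) (v' t) (v t), hmB, hmx t (v'' t)] at h4
    have h5 : cr (v' t) (v' t) = 0 := by
      unfold cr
      ring
    rw [h5] at h4
    linarith
  have hfd : ∀ t, HasDerivAt (fun t => cr (v t) (v' t) * m t ^ 3) 0 t := by
    intro t
    have h := (hωd t).mul ((hmd t).hasDerivAt.pow 3)
    refine h.congr_deriv ?_
    have h4 := hkey t
    simp only [Pi.pow_apply]
    push_cast
    linear_combination (m t) ^ 2 * h4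
  have hconst : ∀ s t, cr (v s) (v' s) * m s ^ 3 = cr (v t) (v' t) * m t ^ 3 := fun s t =>
    is_const_of_deriv_eq_zero (fun t => (hfd t).differentiableAt) (fun t => (hfd t).deriv) s t
  intro t ht
  have ht' : cr (v t) (v' t) = 0 := ht
  refine per h1 h2 ?_ hv fun s => ?_
  · have := hper 0
    rw [zero_add] at this
    exact this.symm
  · have h4 := hconst s t
    rw [ht', zero_mul] at h4
    rcases mul_eq_zero.1 h4 with h5 | h5
    · exact h5
    · exact absurd (pow_eq_zero_iff (by norm_num) |>.1 h5) (hm0 s)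

end Pool.Agent.H396.GX
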